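import Pool.Agent.H19.Mn.Proof

/-!
# MP_82af14_an: connecting orbits below the critical value, in every dimension `n ≥ 3`

`M = S^3 × T^k`, universal cover `S^3 × ℝ^k`, and
`L((x,τ),(v,w)) = |v - A x|² / 2 + |w|² / 2`, where `A(z₁,z₂) = (i z₁, i N z₂)` on
`S^3 ⊂ ℂ² = ℝ^4`, with `N` a large integer. The flow `φ` of `A` has action zero, so `c_u = 0`.
The extremals are `(φ_t (cos(ρt) x + sin(ρt) w), b + t c)` (great circles in a rotating frame). The
starting point is `x₀ = (√(1-1/N²), 1/N)`, whose components move with speeds about `1` and equal
to `1`. For every `y` there are arbitrarily late times at which both components of `φ_t x₀` move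
almost exactly towards (or away from) those of `y` (`big`), so that the distance from `φ_t x₀` to
`y` changes at a rate of at least `√(1-1/N²) cos(π/N)`; an intermediate value argument for the
time, the number of turns being fixed at such a late time, gives the connecting trajectory of
energy `h` for every `h > -(1-1/N²) cos²(π/N) / 2` (`conn`); the targets which are `± φ_t x₀` for
some `t` need a separate argument (`conj`).
-/

namespace Pool.Agent.Results.MP_82af14_an.EveryDimension

open Pool.Agent.H19.Mn

/-- **Main theorem.** In every dimension `n = 3 + k ≥ 3` there are Tonelli Lagrangians of a closed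
manifold (`S^3 × T^k`) whose universal cover (`S^3 × ℝ^k`) has critical value `c_u = 0`, while the
energies at which some point is joined to every point go down to the trivial lower bound
`e_0 = max E(x, 0) = -1/2`, up to `ε`. So `inf < c_u`, and the defect is as large as it can be. -/
theorem result (k : ℕ) (ε : ℝ) (hε : 0 < ε) :
    SimplyConnectedSpace (Cov k) ∧ ∃ L : W k → W k → ℝ, Tonelli L ∧ IsGLB (Crit L) 0 ∧
      IsGreatest {e | ∃ x ∈ Cov k, e = energy L x 0} (-1 / 2) ∧
      (∃ x ∈ Cov k, ∀ h, -1 / 2 + ε ≤ h → h ∈ ConnFrom L x) ∧
      ∃ r, IsGLB (Conn L) r ∧ -1 / 2 ≤ r ∧ r ≤ -1 / 2 + ε :=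
  main k ε hε

end Pool.Agent.Results.MP_82af14_an.EveryDimension
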